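import Pool.Agent.HX.ApMain

set_option autoImplicit false
set_option linter.unusedSectionVars false

noncomputable section

open scoped InnerProductSpace ENNReal Topology
open Classical Filter ContinuousLinearMap

/-!
Approximation passes from a subgroup of finite index to the group, along arbitrary nets.
-/

namespace Pool.Agent.EAX

open Pool.Agent.VN Pool.Agent.HX

variable {ι G H : Type} [Group G] [Group H]

lemma ev_mapDomain {α κ : Type} (φ : α → κ × H) (a : α →₀ ℂ) (z : κ × H → ℂ) (g : H) :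
    ev (Finsupp.mapDomain φ a) z g = ∑ p ∈ a.support, a p * z ((φ p).1, g * (φ p).2⁻¹) := by
  unfold ev
  rw [Finsupp.sum_mapDomain_index (by intro p; simp) (by intro p c d; ring)]
  rfl

lemma coefIn_mapDomain {α β : Type} {k : Subring ℂ} (φ : α → β) {a : α →₀ ℂ} (ha : CoefIn k a) :
    CoefIn k (Finsupp.mapDomain φ a) := by
  unfold Finsupp.mapDomain Finsupp.sum
  exact coefIn_sum k _ _ fun p _ => coefIn_single k _ _ (ha p)

lemma mapF_mapDomain {α κ : Type} {G' : Type} [Group G'] (f : G' →* H) (φ : α → κ × G')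
    (a : α →₀ ℂ) :
    mapF f (Finsupp.mapDomain φ a) = Finsupp.mapDomain (fun p => ((φ p).1, f (φ p).2)) a := by
  rw [mapF_eq, ← Finsupp.mapDomain_comp]
  rfl

variable (G0 : Subgroup G)

/-- representatives of the cosets -/
def rep (ξ : G ⧸ G0) : G := ξ.out

lemma rep_mk (ξ : G ⧸ G0) : ((rep G0 ξ : G) : G ⧸ G0) = ξ := QuotientGroup.out_eq' ξ

lemma rep_mem (p : G) (ξ : G ⧸ G0) : (rep G0 (p • ξ))⁻¹ * p * rep G0 ξ ∈ G0 := by
  rw [mul_assoc, ← QuotientGroup.eq, rep_mk]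
  have h : ((p * rep G0 ξ : G) : G ⧸ G0) = p • ((rep G0 ξ : G) : G ⧸ G0) := rfl
  rw [h, rep_mk]

/-- the form on the coordinates twisted by the cosets -/
def cosF (ξ : G ⧸ G0) (a : ι × G →₀ ℂ) : (ι × (G ⧸ G0)) × G →₀ ℂ :=
  Finsupp.mapDomain (fun p : ι × G => ((p.1, p.2 • ξ), p.2)) a

/-- the conjugated form over the subgroup -/
def subF (ξ : G ⧸ G0) (a : ι × G →₀ ℂ) : (ι × (G ⧸ G0)) × G0 →₀ ℂ :=
  Finsupp.mapDomain (fun p : ι × G => ((p.1, p.2 • ξ),
    (⟨(rep G0 (p.2 • ξ))⁻¹ * p.2 * rep G0 ξ, rep_mem G0 p.2 ξ⟩ : G0))) a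

/-- all twisted forms -/
def cosS (C : Set (ι × G →₀ ℂ)) : Set ((ι × (G ⧸ G0)) × G →₀ ℂ) :=
  Set.image2 (cosF G0) Set.univ C

/-- all conjugated forms -/
def subS (C : Set (ι × G →₀ ℂ)) : Set ((ι × (G ⧸ G0)) × G0 →₀ ℂ) :=
  Set.image2 (subF G0) Set.univ C

variable {G0}

lemma ev_cosF (π : G →* H) (ξ : G ⧸ G0) (a : ι × G →₀ ℂ) (z : (ι × (G ⧸ G0)) × H → ℂ) (g : H) :
    ev (mapF π (cosF G0 ξ a)) z g
      = ∑ p ∈ a.support, a p * z ((p.1, p.2 • ξ), g * (π p.2)⁻¹) := by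
  unfold cosF
  rw [mapF_mapDomain, ev_mapDomain]

lemma ev_subF (π : G →* H) (ξ : G ⧸ G0) (a : ι × G →₀ ℂ) (z : (ι × (G ⧸ G0)) × H → ℂ) (g : H) :
    ev (mapF (π.comp G0.subtype) (subF G0 ξ a)) z g
      = ∑ p ∈ a.support, a p * z ((p.1, p.2 • ξ),
        g * (π (rep G0 ξ))⁻¹ * (π p.2)⁻¹ * π (rep G0 (p.2 • ξ))) := by
  unfold subF
  rw [mapF_mapDomain, ev_mapDomain]
  refine Finset.sum_congr rfl fun p _ => ?_
  congr 3
  show g * (π ((rep G0 (p.2 • ξ))⁻¹ * p.2 * rep G0 ξ))⁻¹ = _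
  rw [map_mul, map_mul, map_inv]
  group

variable [Fintype ι] [Fintype (G ⧸ G0)]

lemma mulR_mono (f : ι × (G ⧸ G0) → H) (z : L2 (ι × (G ⧸ G0)) H) (q : (ι × (G ⧸ G0)) × H) :
    mulR (fun j => Finsupp.single (j, f j) (1 : ℂ)) z q = z (q.1, q.2 * (f q.1)⁻¹) := by
  rw [mulR_apply, ev_single, one_mul]

/-- conjugation by representatives -/
lemma vdim_conj (π : G →* H) (C : Set (ι × G →₀ ℂ)) :
    vdim (Sol (mapF (π.comp G0.subtype) '' subS G0 C) : Set (L2 (ι × (G ⧸ G0)) H))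
      = vdim (Sol (mapF π '' cosS G0 C) : Set (L2 (ι × (G ⧸ G0)) H)) := by
  apply vdim_eq_of_param (fun j : ι × (G ⧸ G0) => Finsupp.single (j, π (rep G0 j.2)) (1 : ℂ))
    (Sol (mapF π '' cosS G0 C)) (Sol_invar _) (Sol_closed _)
  · intro x _ hx
    ext q
    have h := mulR_mono (fun j : ι × (G ⧸ G0) => π (rep G0 j.2)) x
      (q.1, q.2 * π (rep G0 q.1.2))
    rw [hx] at h
    have h' : (0 : ℂ) = x (q.1, q.2 * π (rep G0 q.1.2) * (π (rep G0 q.1.2))⁻¹) := h
    rw [mul_inv_cancel_right] at h'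
    exact h'.symm
  · rintro x hx _ ⟨_, ⟨ξ, _, a, ha, rfl⟩, rfl⟩ g
    rw [ev_subF]
    have h := hx _ ⟨_, ⟨ξ, Set.mem_univ _, a, ha, rfl⟩, rfl⟩ (g * (π (rep G0 ξ))⁻¹)
    rw [ev_cosF] at h
    rw [← h]
    refine Finset.sum_congr rfl fun p _ => ?_
    rw [mulR_mono]
    show a p * x ((p.1, p.2 • ξ), g * (π (rep G0 ξ))⁻¹ * (π p.2)⁻¹ * π (rep G0 (p.2 • ξ)) *
      (π (rep G0 (p.2 • ξ)))⁻¹) = _
    rw [mul_inv_cancel_right]
  · intro z hz
    refine ⟨mulR (fun j : ι × (G ⧸ G0) => Finsupp.single (j, (π (rep G0 j.2))⁻¹) (1 : ℂ)) z,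
      ?_, ?_⟩
    · rintro _ ⟨_, ⟨ξ, _, a, ha, rfl⟩, rfl⟩ g
      rw [ev_cosF]
      have h := hz _ ⟨_, ⟨ξ, Set.mem_univ _, a, ha, rfl⟩, rfl⟩ (g * π (rep G0 ξ))
      rw [ev_subF] at h
      rw [← h]
      refine Finset.sum_congr rfl fun p _ => ?_
      rw [mulR_mono]
      show a p * z ((p.1, p.2 • ξ), g * (π p.2)⁻¹ * ((π (rep G0 (p.2 • ξ)))⁻¹)⁻¹) = _
      rw [inv_inv, mul_inv_cancel_right]
    · ext q
      rw [mulR_mono, mulR_mono]
      show z (q.1, q.2 * (π (rep G0 q.1.2))⁻¹ * ((π (rep G0 q.1.2))⁻¹)⁻¹) = z q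
      rw [inv_inv, inv_mul_cancel_right]

variable (G0)

/-- the sum over the cosets -/
def sumF (i : ι) : (ι × (G ⧸ G0)) × G →₀ ℂ := ∑ ξ : G ⧸ G0, Finsupp.single ((i, ξ), 1) 1

variable {G0}

lemma ev_sumF (π : G →* H) (i : ι) (z : (ι × (G ⧸ G0)) × H → ℂ) (g : H) :
    ev (mapF π (sumF G0 i)) z g = ∑ ξ : G ⧸ G0, z ((i, ξ), g) := by
  unfold sumF
  rw [mapF_eq, Finsupp.mapDomain_finsetSum, ev_finsetSum]
  refine Finset.sum_congr rfl fun ξ _ => ?_
  rw [Finsupp.mapDomain_single, ev_single, one_mul, map_one, inv_one, mul_one]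

/-- the splitting -/
lemma vdim_split (π : G →* H) (C : Set (ι × G →₀ ℂ)) :
    vdim (Sol (mapF π '' C) : Set (L2 ι H))
      + vdim (Sol (mapF π '' (cosS G0 C ∪ Set.range (sumF G0))) : Set (L2 (ι × (G ⧸ G0)) H))
      = vdim (Sol (mapF π '' cosS G0 C) : Set (L2 (ι × (G ⧸ G0)) H)) := by
  have h := vdim_map (mulR_equivar (fun i : ι => mapF π (sumF G0 i)))
    (Sol_invar (mapF π '' cosS G0 C)) (Sol_closed _)
  rw [ker_mulR, ← Sol_union] at h
  have e1 : mapF π '' cosS G0 C ∪ (Set.range fun i : ι => mapF π (sumF G0 i))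
      = mapF π '' (cosS G0 C ∪ Set.range (sumF G0)) := by
    rw [Set.image_union, ← Set.range_comp]
    rfl
  rw [e1] at h
  have e2 : (Sol (mapF π '' cosS G0 C)).map (mulR (fun i : ι => mapF π (sumF G0 i))).toLinearMap
      = Sol (mapF π '' C) := by
    ext y
    constructor
    · rintro ⟨x, hx, rfl⟩
      rintro _ ⟨a, ha, rfl⟩ g
      rw [ev_mapF]
      have h1 : ∀ ξ : G ⧸ G0, ∑ p ∈ a.support, a p * x ((p.1, p.2 • ξ), g * (π p.2)⁻¹) = 0 := by
        intro ξ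
        rw [← ev_cosF]
        exact hx _ ⟨_, ⟨ξ, Set.mem_univ _, a, ha, rfl⟩, rfl⟩ g
      have h2 : ∑ ξ : G ⧸ G0, ∑ p ∈ a.support, a p * x ((p.1, p.2 • ξ), g * (π p.2)⁻¹) = 0 :=
        Finset.sum_eq_zero fun ξ _ => h1 ξ
      rw [Finset.sum_comm] at h2
      rw [← h2]
      refine Finset.sum_congr rfl fun p _ => ?_
      rw [← Finset.mul_sum]
      congr 1
      show mulR (fun i : ι => mapF π (sumF G0 i)) x (p.1, g * (π p.2)⁻¹) = _
      rw [mulR_apply, ev_sumF]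
      exact (Equiv.sum_comp (MulAction.toPerm p.2) fun ξ : G ⧸ G0 =>
        x ((p.1, ξ), g * (π p.2)⁻¹)).symm
    · intro hy
      set c : ℂ := ((Fintype.card (G ⧸ G0) : ℕ) : ℂ)⁻¹ with hc
      have hcard : ((Fintype.card (G ⧸ G0) : ℕ) : ℂ) ≠ 0 := by
        have : Nonempty (G ⧸ G0) := ⟨((1 : G) : G ⧸ G0)⟩
        exact_mod_cast Fintype.card_ne_zero
      have hx : ∀ q : (ι × (G ⧸ G0)) × H,
          mulR (fun j : ι × (G ⧸ G0) => Finsupp.single (j.1, (1 : H)) c) y q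
            = c * y (q.1.1, q.2) := by
        intro q
        rw [mulR_apply, ev_single, inv_one, mul_one]
      refine ⟨mulR (fun j : ι × (G ⧸ G0) => Finsupp.single (j.1, (1 : H)) c) y, ?_, ?_⟩
      · rintro _ ⟨_, ⟨ξ, _, a, ha, rfl⟩, rfl⟩ g
        rw [ev_cosF]
        have h1 := hy _ ⟨a, ha, rfl⟩ g
        rw [ev_mapF] at h1
        have h2 : ∑ p ∈ a.support, a p *
            mulR (fun j : ι × (G ⧸ G0) => Finsupp.single (j.1, (1 : H)) c) y
              ((p.1, p.2 • ξ), g * (π p.2)⁻¹) = c * ∑ p ∈ a.support, a p *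
            y (p.1, g * (π p.2)⁻¹) := by
          rw [Finset.mul_sum]
          refine Finset.sum_congr rfl fun p _ => ?_
          rw [hx]
          show a p * (c * y (p.1, g * (π p.2)⁻¹)) = _
          ring
        rw [h2, h1, mul_zero]
      · ext q
        show mulR (fun i : ι => mapF π (sumF G0 i)) _ q = _
        rw [mulR_apply, ev_sumF]
        have h3 : ∀ ξ : G ⧸ G0, mulR (fun j : ι × (G ⧸ G0) => Finsupp.single (j.1, (1 : H)) c) y
            ((q.1, ξ), q.2) = c * y q := fun ξ => hx _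
        rw [Finset.sum_congr rfl fun ξ _ => h3 ξ, Finset.sum_const, Finset.card_univ,
          nsmul_eq_mul, ← mul_assoc, hc, mul_inv_cancel₀ hcard, one_mul]
  rw [e2] at h
  exact h

/-- semicontinuity for systems -/
lemma eventually_le_forms {κ : Type} [Fintype κ] {I : Type} {l : Filter I} {H : I → Type}
    [∀ i, Group (H i)] (π : ∀ i, G →* H i) (hπ : ∀ g : G, g ≠ 1 → ∀ᶠ i in l, π i g ≠ 1)
    (C : Set (κ × G →₀ ℂ)) (hC : C.Finite) {ε : ℝ} (hε : 0 < ε) :
    ∀ᶠ i in l, vdim (Sol (mapF (π i) '' C) : Set (L2 κ (H i)))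
      ≤ vdim (Sol C : Set (L2 κ G)) + ε := by
  obtain ⟨m, n, A, -, h1, h2⟩ := exists_matrixHK ⊤ C hC fun _ _ _ => Subring.mem_top _
  filter_upwards [eventually_le_add π hπ A hε] with i hi
  rw [h1, h2] at hi
  exact hi

/-- **Finite index.** Approximation along an arbitrary net of homomorphisms which is eventually
nontrivial on each element passes from a subgroup of finite index to the group. -/
theorem approx_finiteIndex (k : Subring ℂ) {G : Type} [Group G] (G0 : Subgroup G)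
    [G0.FiniteIndex] {I : Type} (l : Filter I) {H : I → Type} [∀ i, Group (H i)]
    (π : ∀ i, G →* H i) (hπ : ∀ g : G, g ≠ 1 → ∀ᶠ i in l, π i g ≠ 1)
    (h : ApproxAlong k l fun i => (π i).comp G0.subtype) : ApproxAlong k l π := by
  have : Fintype (G ⧸ G0) := Subgroup.fintypeQuotientOfFiniteIndex
  intro m n A hA
  set C : Set (Fin m × G →₀ ℂ) := Set.range (colF A) with hC
  have hCf : C.Finite := Set.finite_range _
  have hk : ∀ c ∈ C, CoefIn k c := by
    rintro _ ⟨j, rfl⟩ ⟨i, g⟩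
    rw [colF_apply]
    exact hA i j g
  have hsub : (subS G0 C).Finite := Set.Finite.image2 _ Set.finite_univ hCf
  have hcos : (cosS G0 C).Finite := Set.Finite.image2 _ Set.finite_univ hCf
  have hsubk : ∀ c ∈ subS G0 C, ∀ p, c p ∈ k := by
    rintro _ ⟨ξ, _, a, ha, rfl⟩ p
    exact coefIn_mapDomain _ (hk a ha) p
  -- the left side converges
  have h1 : Tendsto (fun i => vdim (Sol (mapF (π i) '' cosS G0 C) :
      Set (L2 (Fin m × (G ⧸ G0)) (H i)))) l
      (𝓝 (vdim (Sol (cosS G0 C) : Set (L2 (Fin m × (G ⧸ G0)) G)))) := by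
    have h2 := approx_forms k l h (subS G0 C) hsub hsubk
    have h3 : vdim (Sol (cosS G0 C) : Set (L2 (Fin m × (G ⧸ G0)) G))
        = vdim (Sol (subS G0 C) : Set (L2 (Fin m × (G ⧸ G0)) G0)) := by
      have h4 := vdim_conj (G0 := G0) (MonoidHom.id G) C
      have h5 : mapF (MonoidHom.id G) '' cosS G0 C = cosS G0 C := by
        have : mapF (ι := Fin m × (G ⧸ G0)) (MonoidHom.id G) = id := by
          funext a
          exact mapF_eq' a
        rw [this, Set.image_id]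
      rw [h5] at h4
      rw [← h4]
      exact vdim_induced _ (Subgroup.subtype_injective _) _
    rw [h3]
    refine h2.congr fun i => ?_
    exact vdim_conj (π i) C
  have hid : ∀ {κ : Type} (D : Set (κ × G →₀ ℂ)), mapF (MonoidHom.id G) '' D = D := by
    intro κ D
    have : mapF (ι := κ) (MonoidHom.id G) = id := by
      funext a
      exact mapF_eq' a
    rw [this, Set.image_id]
  have h0 := vdim_split (G0 := G0) (MonoidHom.id G) C
  rw [hid, hid, hid] at h0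
  rw [Metric.tendsto_nhds] at h1 ⊢
  intro ε hε
  filter_upwards [h1 (ε / 2) (half_pos hε), eventually_le_forms π hπ C hCf (half_pos hε),
    eventually_le_forms π hπ (cosS G0 C ∪ Set.range (sumF G0))
      (hcos.union (Set.finite_range _)) (half_pos hε)] with i hi1 hi2 hi3
  have hi0 := vdim_split (G0 := G0) (π i) C
  rw [Real.dist_eq, abs_lt] at hi1 ⊢
  have e1 : kerDim (pushMat (π i) A) = vdim (Sol (mapF (π i) '' C) : Set (L2 (Fin m) (H i))) := by
    rw [kerDim_pushMat]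
  have e2 : kerDim A = vdim (Sol C : Set (L2 (Fin m) G)) := by
    rw [kerDim_eq]
  rw [e1, e2]
  constructor <;> linarith [hi1.1, hi1.2]

end Pool.Agent.EAX
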